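import Pool.Agent.H30.KL.Gen.Defs

/-!
# Choice of the dot `y` (MP_a7460d_ag)

`c₁` is the leftmost vertex of `C`, `h₁` its successor, `(i',j')` a box of `(C,R)` south-west of `(i,j)`.  There is a vertex `y` north-west of `c₁` and below
row `i` such that every zero box `(i₀,j₀)` with `y ≤ j₀ < c₁`, `u y < i₀ ≤ u h₁` has a vertex `x` of the rows `≥ i` to the left of `c₁` in its south-east.
-/

set_option autoImplicit false

namespace Pool.Agent.H60.KLU

open Pool.Agent.H30.KL

variable {n : ℕ}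

/-- number of the columns `c < k` with `t ≤ w c` -/
def nn (w : Equiv.Perm (Fin n)) (t k : ℕ) : ℕ :=
  (Finset.univ.filter fun c : Fin n => (c : ℕ) < k ∧ t ≤ (w c : ℕ)).card

theorem rk_eq_nn (w : Equiv.Perm (Fin n)) (i j : Fin n) : rk w i j = nn w i (j + 1) := by
  rw [rk, nn]
  congr 1
  ext c
  simp only [Finset.mem_filter, Finset.mem_univ, true_and, Fin.le_def, Nat.lt_succ_iff]

theorem nn_zero (w : Equiv.Perm (Fin n)) (t : ℕ) : nn w t 0 = 0 := by
  simp [nn]

theorem nn_row (w : Equiv.Perm (Fin n)) {t : ℕ} (ht : t < n) (k : ℕ) :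
    nn w t k = nn w (t + 1) k + if ((w.symm ⟨t, ht⟩ : Fin n) : ℕ) < k then 1 else 0 := by
  classical
  have hs : (Finset.univ.filter fun c : Fin n => (c : ℕ) < k ∧ t ≤ (w c : ℕ)) =
      (Finset.univ.filter fun c : Fin n => (c : ℕ) < k ∧ t + 1 ≤ (w c : ℕ)) ∪
        (Finset.univ.filter fun c : Fin n => (c : ℕ) < k ∧ (w c : ℕ) = t) := by
    ext c
    simp only [Finset.mem_filter, Finset.mem_univ, true_and, Finset.mem_union]
    omega
  have hd : Disjoint (Finset.univ.filter fun c : Fin n => (c : ℕ) < k ∧ t + 1 ≤ (w c : ℕ))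
      (Finset.univ.filter fun c : Fin n => (c : ℕ) < k ∧ (w c : ℕ) = t) := by
    rw [Finset.disjoint_left]
    intro c h1 h2
    simp only [Finset.mem_filter, Finset.mem_univ, true_and] at h1 h2
    omega
  rw [nn, hs, Finset.card_union_of_disjoint hd, nn]
  congr 1
  split_ifs with h
  · rw [Finset.card_eq_one]
    refine ⟨w.symm ⟨t, ht⟩, ?_⟩
    ext c
    simp only [Finset.mem_filter, Finset.mem_univ, true_and, Finset.mem_singleton]
    constructor
    · rintro ⟨-, h2⟩
      rw [Equiv.eq_symm_apply]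
      exact Fin.ext h2
    · rintro rfl
      refine ⟨h, ?_⟩
      simp
  · rw [Finset.card_eq_zero, Finset.filter_eq_empty_iff]
    intro c _ h2
    apply h
    have : c = w.symm ⟨t, ht⟩ := by
      rw [Equiv.eq_symm_apply]
      exact Fin.ext h2.2
    rw [← this]
    exact h2.1

theorem nn_le {u v : Equiv.Perm (Fin n)} (huv : BruhatLE u v) {t k : ℕ} (ht : t < n) (hk : k ≤ n) :
    nn u t k ≤ nn v t k := by
  rcases Nat.eq_zero_or_pos k with h | h
  · rw [h, nn_zero, nn_zero]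
  · have h1 := huv ⟨t, ht⟩ ⟨k - 1, by omega⟩
    rw [rk_eq_nn, rk_eq_nn] at h1
    simp only at h1
    rwa [Nat.sub_add_cancel h] at h1

theorem exists_y {u v : Equiv.Perm (Fin n)} (huv : BruhatLE u v) {i i' j' c₁ h₁ : Fin n}
    {C : Finset (Fin n)} (hi : i' ≤ i) (hC : C ⊆ SWs u i' j') (hc₁ : c₁ ∈ C)
    (hg : rk u i' j' + C.card = rk v i' j' + 1) (hh : i ≤ u h₁)
    (hcap : ∀ I, i ≤ I → I ≤ u h₁ → rk u I j' + C.card ≤ rk v I j')
    (hleft : ∀ w ∈ NWs u i' j', u w < i → w < c₁)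
    (hlow : ∀ w, c₁ < w → w ≤ j' → i ≤ u w → u h₁ ≤ u w) :
    ∃ y, y < c₁ ∧ i' ≤ u y ∧ u y < i ∧ y ≤ j' ∧
      ∀ i₀ j₀, rk v i₀ j₀ = rk u i₀ j₀ → y ≤ j₀ → j₀ < c₁ → u y < i₀ → i₀ ≤ u h₁ →
        ∃ x, j₀ < x ∧ x < c₁ ∧ i ≤ u x ∧ u x < i₀ := by
  classical
  by_contra hcon
  push Not at hcon
  have hc₁' := mem_SWs.1 (hC hc₁)
  -- the bad zeros
  set Bad : Finset (Fin n × Fin n) := Finset.univ.filter fun z =>
    rk v z.1 z.2 = rk u z.1 z.2 ∧ z.2 < c₁ ∧ z.1 ≤ u h₁ ∧
      ∀ x, z.2 < x → x < c₁ → i ≤ u x → z.1 ≤ u x with hBad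
  have mBad : ∀ z : Fin n × Fin n, z ∈ Bad ↔ (rk v z.1 z.2 = rk u z.1 z.2 ∧ z.2 < c₁ ∧ z.1 ≤ u h₁ ∧
      ∀ x, z.2 < x → x < c₁ → i ≤ u x → z.1 ≤ u x) := by
    intro z
    simp [hBad]
  set J : ℕ → ℕ := fun t => (Bad.filter fun z => t < (z.1 : ℕ)).sup fun z => (z.2 : ℕ) + 1 with hJ
  have J1 : ∀ (t : ℕ) (z : Fin n × Fin n), z ∈ Bad → t < (z.1 : ℕ) → (z.2 : ℕ) + 1 ≤ J t := by
    intro t z hz ht
    exact Finset.le_sup (f := fun z : Fin n × Fin n => (z.2 : ℕ) + 1) (Finset.mem_filter.2 ⟨hz, ht⟩)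
  have J2 : ∀ t, J t ≤ (c₁ : ℕ) := by
    intro t
    refine Finset.sup_le ?_
    intro z hz
    have := ((mBad z).1 (Finset.mem_filter.1 hz).1).2.1
    exact this
  have J3 : ∀ t, J (t + 1) ≤ J t := by
    intro t
    refine Finset.sup_mono ?_
    intro z hz
    rw [Finset.mem_filter] at hz ⊢
    exact ⟨hz.1, by omega⟩
  have J4 : ∀ t, J t = J (t + 1) ∨ ∃ z ∈ Bad, (z.1 : ℕ) = t + 1 ∧ (z.2 : ℕ) + 1 = J t := by
    intro t
    rcases (Bad.filter fun z => t < (z.1 : ℕ)).eq_empty_or_nonempty with he | hne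
    · left
      have h0 : J t = 0 := by
        rw [hJ]
        simp only [he]
        rfl
      have := J3 t
      omega
    · obtain ⟨z, hz, hz2⟩ := Finset.exists_mem_eq_sup _ hne fun z : Fin n × Fin n => (z.2 : ℕ) + 1
      rw [Finset.mem_filter] at hz
      have hz3 : J t = (z.2 : ℕ) + 1 := hz2
      rcases Nat.lt_or_ge (t + 1) (z.1 : ℕ) with h | h
      · left
        have h1 := J1 (t + 1) z hz.1 h
        have h2 := J3 t
        omega
      · right
        exact ⟨z, hz.1, by omega, hz3.symm⟩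
  -- the top row
  obtain ⟨I, hI1, hI2, hI3, hI4⟩ : ∃ I : Fin n, i ≤ I ∧ I ≤ u h₁ ∧ (∀ z ∈ Bad, z.1 ≤ I) ∧
      (I = i ∨ ∃ z ∈ Bad, z.1 = I) := by
    by_cases hex : ∃ z ∈ Bad, i ≤ z.1
    · obtain ⟨z₀, hz₀, hz₀'⟩ := hex
      obtain ⟨z, hz, hmax⟩ := Finset.exists_max_image Bad (fun z => z.1) ⟨z₀, hz₀⟩
      exact ⟨z.1, hz₀'.trans (hmax z₀ hz₀), ((mBad z).1 hz).2.2.1, hmax, Or.inr ⟨z, hz, rfl⟩⟩
    · push Not at hex
      exact ⟨i, le_rfl, hh, fun z hz => (hex z hz).le, Or.inl rfl⟩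
  have JI : J (I : ℕ) = 0 := by
    have : (Bad.filter fun z => (I : ℕ) < (z.1 : ℕ)) = ∅ := by
      rw [Finset.filter_eq_empty_iff]
      intro z hz h
      have := hI3 z hz
      rw [Fin.le_def] at this
      omega
    rw [hJ]
    simp only [this]
    rfl
  -- no vertex of the row `t` in the columns from `J t` to `j'`
  have hrow : ∀ w : Fin n, (i' : ℕ) ≤ (u w : ℕ) → (u w : ℕ) < (I : ℕ) → w ≤ j' →
      (w : ℕ) < J (u w : ℕ) := by
    intro w h1 h2 h3
    have hwc : w ≠ c₁ := by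
      rintro rfl
      have := hc₁'.2
      rw [Fin.lt_def] at this
      omega
    rcases lt_or_ge (u w) i with hlt | hge
    · -- row below `i`
      have h4 : w < c₁ := hleft w (mem_NWs.2 ⟨h3, h1⟩) hlt
      obtain ⟨i₀, j₀, hz, hz1, hz2, hz3, hz4, hz5⟩ := hcon w h4 h1 hlt h3
      have hb : ((i₀, j₀) : Fin n × Fin n) ∈ Bad := by
        rw [mBad]
        exact ⟨hz, hz2, hz4, fun x a1 a2 a3 => hz5 x a1 a2 a3⟩
      have := J1 (u w : ℕ) (i₀, j₀) hb hz3
      have hz1' : (w : ℕ) ≤ (j₀ : ℕ) := hz1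
      simp only at this
      omega
    · -- row above `i`
      have hne : I ≠ i := by
        rintro rfl
        rw [Fin.le_def] at hge
        omega
      obtain ⟨z, hz, hzI⟩ := hI4.resolve_left hne
      have h5 := J1 (u w : ℕ) z hz (by rw [hzI]; exact h2)
      have h6 := (mBad z).1 hz
      rcases lt_trichotomy w c₁ with h4 | h4 | h4
      · by_contra h7
        have h8 : z.2 < w := by
          rw [Fin.lt_def]
          omega
        have h9 := h6.2.2.2 w h8 h4 hge
        rw [hzI, Fin.le_def] at h9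
        omega
      · exact absurd h4 hwc
      · have h9 := hlow w h4 h3 hge
        rw [Fin.le_def] at h9 hI2
        omega
  have hj' : (c₁ : ℕ) ≤ (j' : ℕ) := hc₁'.1
  -- downward induction on the row
  have key : ∀ (d t : ℕ), t + d = (I : ℕ) → (i' : ℕ) ≤ t →
      C.card + nn u t (j' + 1) + nn v t (J t) ≤ nn v t (j' + 1) + nn u t (J t) := by
    intro d
    induction d with
    | zero =>
      intro t ht _
      have ht' : t = (I : ℕ) := by omega
      subst ht'
      rw [JI, nn_zero, nn_zero]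
      have := hcap I hI1 hI2
      rw [rk_eq_nn, rk_eq_nn] at this
      omega
    | succ d ih =>
      intro t ht hit
      have h1 := ih (t + 1) (by omega) (by omega)
      have htn : t < n := by
        have := I.isLt
        omega
      have htn1 : t + 1 < n := by
        have := I.isLt
        omega
      have hu1 := nn_row u htn (j' + 1)
      have hu2 := nn_row u htn (J t)
      have hv1 := nn_row v htn (j' + 1)
      have hv2 := nn_row v htn (J t)
      have hJt := J2 t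
      -- the vertex of `u` in the row `t`
      have hu3 : (((u.symm ⟨t, htn⟩ : Fin n) : ℕ) < j' + 1 ↔ ((u.symm ⟨t, htn⟩ : Fin n) : ℕ) < J t) := by
        constructor
        · intro h
          have := hrow (u.symm ⟨t, htn⟩) (by simpa using hit) (by simp; omega)
            (by rw [Fin.le_def]; omega)
          simpa using this
        · intro h
          omega
      have hu4 : (if ((u.symm ⟨t, htn⟩ : Fin n) : ℕ) < j' + 1 then 1 else 0) =
          (if ((u.symm ⟨t, htn⟩ : Fin n) : ℕ) < J t then 1 else 0) := by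
        simp only [hu3]
      have hv4 : (if ((v.symm ⟨t, htn⟩ : Fin n) : ℕ) < J t then 1 else 0) ≤
          (if ((v.symm ⟨t, htn⟩ : Fin n) : ℕ) < j' + 1 then 1 else 0) := by
        split_ifs <;> omega
      -- the claim in the row `t + 1` for the columns from `J t`
      have h2 : C.card + nn u (t + 1) (j' + 1) + nn v (t + 1) (J t) ≤
          nn v (t + 1) (j' + 1) + nn u (t + 1) (J t) := by
        rcases J4 t with h | ⟨z, hz, hz1, hz2⟩
        · rw [h]
          exact h1
        · have h3 := ((mBad z).1 hz).1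
          rw [rk_eq_nn, rk_eq_nn, hz1, hz2] at h3
          have h4 := nn_le huv htn1 (k := J (t + 1)) (by
            have := J2 (t + 1)
            have := c₁.isLt
            omega)
          omega
      omega
  have h := key ((I : ℕ) - i') i' (by
    have h1 : (i' : ℕ) ≤ i := hi
    have h2 : (i : ℕ) ≤ I := hI1
    omega) le_rfl
  have h4 := nn_le huv i'.isLt (k := J i') (by
    have := J2 i'
    have := c₁.isLt
    omega)
  rw [rk_eq_nn, rk_eq_nn] at hg
  omega

end Pool.Agent.H60.KLU
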